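import Pool.Agent.H1.ZU.Stm

/-!
# Upper side of the Zhang-Zagier spectrum, module ALPHA

From an integer polynomial in `t = z - z ^ 2` to an algebraic number of small height.
-/

open Polynomial

namespace Pool.H1.ZU

/-- `log M(p) + log M(p(1 - X))` -/
private noncomputable def alpha_l (p : ℤ[X]) : ℝ :=
  Real.log (p.map (Int.castRingHom ℂ)).mahlerMeasure +
    Real.log ((p.comp (1 - X)).map (Int.castRingHom ℂ)).mahlerMeasure

private lemma alpha_map_ne {p : ℤ[X]} (hp : p ≠ 0) : p.map (Int.castRingHom ℂ) ≠ 0 := by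
  rw [Ne, Polynomial.map_eq_zero_iff (RingHom.injective_int _)]
  exact hp

private lemma alpha_comp_ne {p : ℤ[X]} (hp : p ≠ 0) : p.comp (1 - X) ≠ 0 := by
  intro h
  apply hp
  have h1 : (p.comp (1 - X)).comp (1 - X) = p := by
    rw [comp_assoc]; simp
  rw [← h1, h, zero_comp]

private lemma alpha_log_mul {p r : ℤ[X]} (hp : p ≠ 0) (hr : r ≠ 0) :
    Real.log ((p * r).map (Int.castRingHom ℂ)).mahlerMeasure =
      Real.log (p.map (Int.castRingHom ℂ)).mahlerMeasure +
      Real.log (r.map (Int.castRingHom ℂ)).mahlerMeasure := by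
  rw [Polynomial.map_mul, mahlerMeasure_mul, Real.log_mul]
  · exact (mahlerMeasure_pos_of_ne_zero (alpha_map_ne hp)).ne'
  · exact (mahlerMeasure_pos_of_ne_zero (alpha_map_ne hr)).ne'

private lemma alpha_l_mul {p r : ℤ[X]} (hp : p ≠ 0) (hr : r ≠ 0) :
    alpha_l (p * r) = alpha_l p + alpha_l r := by
  unfold alpha_l
  rw [mul_comp, alpha_log_mul hp hr, alpha_log_mul (alpha_comp_ne hp) (alpha_comp_ne hr)]
  ring

private lemma alpha_log_const (p : ℤ[X]) (hp : p ≠ 0) (h0 : p.natDegree = 0) :
    0 ≤ Real.log (p.map (Int.castRingHom ℂ)).mahlerMeasure := by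
  obtain ⟨c, rfl⟩ := natDegree_eq_zero.1 h0
  rw [map_C, mahlerMeasure_const]
  apply Real.log_nonneg
  have hc : c ≠ 0 := by
    rintro rfl; simp at hp
  have : (1 : ℤ) ≤ |c| := Int.one_le_abs hc
  have h1 : ‖(Int.castRingHom ℂ) c‖ = ((|c| : ℤ) : ℝ) := by
    simp
  rw [h1]
  exact_mod_cast this

private lemma alpha_l_const (p : ℤ[X]) (hp : p ≠ 0) (h0 : p.natDegree = 0) : 0 ≤ alpha_l p := by
  unfold alpha_l
  have h1 := alpha_log_const p hp h0
  have h2 := alpha_log_const (p.comp (1 - X)) (alpha_comp_ne hp)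
    (by rw [H38.ZZ.natDegree_comp_one_sub, h0])
  linarith

/-- from an integer polynomial in `t` to an algebraic number -/
theorem ALPHA : S_ALPHA := by
  intro q n hn hq L hL A hA
  obtain ⟨P, hP⟩ : ∃ P : ℤ[X], P = q.comp (X - X ^ 2) := ⟨_, rfl⟩
  rw [← hP] at hL
  have hdeg2 : (X - X ^ 2 : ℤ[X]).natDegree = 2 := by
    rw [show (X - X ^ 2 : ℤ[X]) = -(X ^ 2 - X) by ring, natDegree_neg]
    compute_degree!
  have hPdeg : P.natDegree = 2 * n := by
    rw [hP, natDegree_comp, hq, hdeg2, mul_comm]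
  have hP0 : P ≠ 0 := by
    intro h; rw [h] at hPdeg; simp at hPdeg; omega
  have hPsym : P.comp (1 - X) = P := by
    rw [hP, comp_assoc]
    congr 1
    simp only [sub_comp, X_comp, X_pow_comp]
    ring
  have hPl : alpha_l P ≤ L * ((2 * n : ℕ) : ℝ) := by
    unfold alpha_l
    rw [hPsym]; push_cast; linarith
  -- an irreducible factor of small height
  have hex : ∃ p : ℤ[X], Irreducible p ∧ p ∣ P ∧ 0 < p.natDegree ∧
      alpha_l p ≤ L * (p.natDegree : ℝ) := by
    by_contra hcon
    push Not at hcon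
    have key : ∀ R : ℤ[X], R ≠ 0 → R ∣ P → L * (R.natDegree : ℝ) ≤ alpha_l R ∧
        (0 < R.natDegree → L * (R.natDegree : ℝ) < alpha_l R) := by
      intro R
      induction R using WfDvdMonoid.induction_on_irreducible with
      | zero => intro h; exact absurd rfl h
      | unit u hu =>
        intro hu0 _
        have hd : u.natDegree = 0 := natDegree_eq_zero_of_isUnit hu
        rw [hd]
        refine ⟨?_, fun h => absurd h (lt_irrefl _)⟩
        simpa using alpha_l_const u hu0 hd
      | mul a i ha hi ih =>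
        intro _ hdvd
        have hi0 := hi.ne_zero
        have h1 : i ∣ P := (Dvd.intro _ rfl : i ∣ i * a).trans hdvd
        have h2 : a ∣ P := (Dvd.intro_left _ rfl : a ∣ i * a).trans hdvd
        obtain ⟨j1, j2⟩ := ih ha h2
        rw [alpha_l_mul hi0 ha, natDegree_mul hi0 ha]
        push_cast
        rcases Nat.eq_zero_or_pos i.natDegree with hz | hpos
        · have h3 := alpha_l_const i hi0 hz
          rw [hz]
          refine ⟨by push_cast; linarith, fun h => ?_⟩
          have := j2 (by omega)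
          push_cast; linarith
        · have h3 := hcon i hi h1 hpos
          refine ⟨by linarith, fun _ => by linarith⟩
    have h4 := (key P hP0 dvd_rfl).2 (by rw [hPdeg]; omega)
    rw [hPdeg] at h4
    linarith
  obtain ⟨p, hpi, hpP, hp0, hpl⟩ := hex
  -- a root
  have hdegC : (p.map (Int.castRingHom ℂ)).degree ≠ 0 := by
    rw [degree_map_eq_of_injective (RingHom.injective_int _)]
    intro h
    have := natDegree_eq_zero_iff_degree_le_zero.2 h.le
    omega
  obtain ⟨α, hα⟩ := IsAlgClosed.exists_root (p.map (Int.castRingHom ℂ)) hdegC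
  have hαp : aeval α p = 0 := by
    rw [aeval_def, eval₂_eq_eval_map]; exact hα
  refine ⟨α, ?_, ?_, ?_⟩
  · refine ⟨p.map (Int.castRingHom ℚ), ?_, ?_⟩
    · rw [Polynomial.map_ne_zero_iff (RingHom.injective_int _)]
      exact hpi.ne_zero
    · rw [H38.ZZ.aeval_map_rat, hαp]
  · rw [H38.ZZ.zzHeight_eq hpi hp0 hαp]
    unfold Pool.H1.ZZ.height
    rw [div_le_iff₀ (by exact_mod_cast hp0)]
    exact hpl
  · intro hmem
    apply hA _ hmem
    obtain ⟨c, hc⟩ := hpP
    have h1 : aeval α P = 0 := by rw [hc, map_mul, hαp, zero_mul]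
    rw [hP, aeval_comp] at h1
    simpa using h1

end Pool.H1.ZU
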