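import Pool.Agent.H1.ZU.Stm

/-!
# Upper side of the Zhang-Zagier spectrum, module JEN

Upper bound of the average of `log (‖A‖ ^ 2 + ‖C‖ ^ 2)` on the unit circle with a multiplier `B`:
`log x ≤ x / c - 1 + log c`, Parseval's identity and `|B(0)| ≤ M(B)`.
-/

open Polynomial MeasureTheory

namespace Pool.H1.ZU

private lemma jen_aeval (p : ℤ[X]) (z : ℂ) :
    aeval z p = (p.map (Int.castRingHom ℂ)).eval z := by
  rw [aeval_def, eval₂_eq_eval_map]; rfl

private lemma jen_parseval (p : ℤ[X]) :
    Real.circleAverage (fun z => ‖aeval z p‖ ^ 2) 0 1 =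
      ∑ i ∈ Finset.range (p.natDegree + 1), ((p.coeff i : ℤ) : ℝ) ^ 2 := by
  have h := Polynomial.sum_sq_norm_coeff_eq_circleAverage (p.map (Int.castRingHom ℂ))
  simp only [jen_aeval]
  rw [← h]
  rw [Finset.sum_subset (s₂ := Finset.range (p.natDegree + 1))]
  · apply Finset.sum_congr rfl
    intro i _
    rw [coeff_map]
    simp
  · intro i hi
    rw [mem_support_iff, coeff_map] at hi
    rw [Finset.mem_range, Nat.lt_succ_iff]
    apply le_natDegree_of_ne_zero
    intro h0
    rw [h0] at hi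
    simp at hi
  · intro i _ hi
    rw [notMem_support_iff] at hi
    rw [hi]; simp

private lemma jen_cont (p : ℤ[X]) : Continuous (fun z : ℂ => ‖aeval z p‖ ^ 2) := by
  simp only [jen_aeval]
  fun_prop

private lemma jen_mahler (B : ℤ[X]) (hB : B.coeff 0 ≠ 0) :
    Real.log |(B.coeff 0 : ℝ)| ≤ Real.circleAverage (fun z => Real.log ‖aeval z B‖) 0 1 := by
  have h1 := Polynomial.norm_coeff_le_choose_mul_mahlerMeasure 0 (B.map (Int.castRingHom ℂ))
  rw [Nat.choose_zero_right, Nat.cast_one, one_mul, coeff_map] at h1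
  have h2 : ‖(Int.castRingHom ℂ) (B.coeff 0)‖ = |(B.coeff 0 : ℝ)| := by
    simp
  rw [h2] at h1
  have h3 : 0 < |(B.coeff 0 : ℝ)| := abs_pos.2 (by exact_mod_cast hB)
  have h4 := Real.log_le_log h3 h1
  rw [← logMahlerMeasure_eq_log_MahlerMeasure, logMahlerMeasure_def] at h4
  simpa only [jen_aeval] using h4

/-- upper bound of a logarithmic integral with a multiplier -/
theorem JEN : S_JEN := by
  intro A C B hB hpos
  have hB0 : B ≠ 0 := by
    intro h; rw [h] at hB; simp at hB
  obtain ⟨c, hc⟩ : ∃ c : ℝ, c = (∑ i ∈ Finset.range ((A * B).natDegree + 1),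
      (((A * B).coeff i : ℤ) : ℝ) ^ 2) +
      ∑ i ∈ Finset.range ((C * B).natDegree + 1), (((C * B).coeff i : ℤ) : ℝ) ^ 2 := ⟨_, rfl⟩
  rw [← hc]
  have hiA : CircleIntegrable (fun z => ‖aeval z (A * B)‖ ^ 2) 0 1 :=
    (jen_cont (A * B)).continuousOn.circleIntegrable zero_le_one
  have hiC : CircleIntegrable (fun z => ‖aeval z (C * B)‖ ^ 2) 0 1 :=
    (jen_cont (C * B)).continuousOn.circleIntegrable zero_le_one
  have hcAv : Real.circleAverage
      (fun z => ‖aeval z (A * B)‖ ^ 2 + ‖aeval z (C * B)‖ ^ 2) 0 1 = c := by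
    rw [Real.circleAverage_fun_add hiA hiC, jen_parseval, jen_parseval, hc]
  -- positivity of c
  have hcpos : 0 < c := by
    have h1 := hpos 1 (by simp)
    have hAC : A * B ≠ 0 ∨ C * B ≠ 0 := by
      by_contra hcon
      push Not at hcon
      obtain ⟨e1, e2⟩ := hcon
      have e1' : A = 0 := (mul_eq_zero.1 e1).resolve_right hB0
      have e2' : C = 0 := (mul_eq_zero.1 e2).resolve_right hB0
      rw [e1', e2'] at h1
      simp at h1
    have key : ∀ p : ℤ[X], p ≠ 0 → 0 < ∑ i ∈ Finset.range (p.natDegree + 1),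
        ((p.coeff i : ℤ) : ℝ) ^ 2 := by
      intro p hp
      apply Finset.sum_pos' (fun _ _ => by positivity)
      refine ⟨p.natDegree, Finset.self_mem_range_succ _, ?_⟩
      have : p.coeff p.natDegree ≠ 0 := by
        rw [coeff_natDegree]; exact leadingCoeff_ne_zero.2 hp
      have h3 : ((p.coeff p.natDegree : ℤ) : ℝ) ≠ 0 := by exact_mod_cast this
      positivity
    have nn : ∀ p : ℤ[X], 0 ≤ ∑ i ∈ Finset.range (p.natDegree + 1),
        ((p.coeff i : ℤ) : ℝ) ^ 2 := fun p => Finset.sum_nonneg (fun _ _ => by positivity)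
    rw [hc]
    rcases hAC with h | h
    · have := key _ h; have := nn (C * B); linarith
    · have := key _ h; have := nn (A * B); linarith
  -- integrability
  have hF : CircleIntegrable (fun z => Real.log (‖aeval z A‖ ^ 2 + ‖aeval z C‖ ^ 2)) 0 1 := by
    apply ContinuousOn.circleIntegrable zero_le_one
    apply ContinuousOn.log
    · exact ((jen_cont A).add (jen_cont C)).continuousOn
    · intro z hz
      exact (hpos z (by simpa using hz)).ne'
  have hLB : CircleIntegrable (fun z => Real.log ‖aeval z B‖) 0 1 := by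
    simp only [jen_aeval]
    exact (analyticOnNhd_id.aeval_polynomial
      (B.map (Int.castRingHom ℂ))).meromorphicOn.circleIntegrable_log_norm
  have hG1 : CircleIntegrable (fun z => (‖aeval z (A * B)‖ ^ 2 + ‖aeval z (C * B)‖ ^ 2) / c +
      (Real.log c - 1)) 0 1 := by
    apply ContinuousOn.circleIntegrable zero_le_one
    exact ((((jen_cont (A * B)).add (jen_cont (C * B))).div_const c).add continuous_const).continuousOn
  have hL2 : CircleIntegrable (fun z => 2 * Real.log ‖aeval z B‖) 0 1 := by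
    have e : (fun z : ℂ => 2 * Real.log ‖aeval z B‖) =
        (fun z : ℂ => Real.log ‖aeval z B‖) + fun z : ℂ => Real.log ‖aeval z B‖ := by
      funext z; simp only [Pi.add_apply]; ring
    rw [e]
    exact hLB.add hLB
  have hS : CircleIntegrable (fun z => Real.log (‖aeval z A‖ ^ 2 + ‖aeval z C‖ ^ 2) +
      2 * Real.log ‖aeval z B‖) 0 1 := hF.add hL2
  -- the inequality almost everywhere
  have hmain : Real.circleAverage (fun z => Real.log (‖aeval z A‖ ^ 2 + ‖aeval z C‖ ^ 2) +
      2 * Real.log ‖aeval z B‖) 0 1 ≤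
      Real.circleAverage (fun z => (‖aeval z (A * B)‖ ^ 2 + ‖aeval z (C * B)‖ ^ 2) / c +
        (Real.log c - 1)) 0 1 := by
    unfold Real.circleAverage
    apply smul_le_smul_of_nonneg_left _ (by positivity)
    rw [intervalIntegral.integral_of_le (by positivity), intervalIntegral.integral_of_le
      (by positivity)]
    have i1 := hS
    have i2 := hG1
    rw [circleIntegrable_def, intervalIntegrable_iff_integrableOn_Ioc_of_le (by positivity)] at i1 i2
    apply MeasureTheory.integral_mono_ae i1 i2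
    have hae : ∀ᵐ (θ : ℝ) ∂volume.restrict (Set.Ioc 0 (2 * Real.pi)),
        aeval (circleMap 0 1 θ) B ≠ 0 := by
      rw [ae_restrict_iff' measurableSet_Ioc]
      refine Set.Finite.measure_zero ?_ _
      have hBm : B.map (Int.castRingHom ℂ) ≠ 0 := by
        rw [Ne, Polynomial.map_eq_zero_iff (RingHom.injective_int _)]
        exact hB0
      refine Set.Finite.of_finite_image (f := circleMap 0 1)
        ((B.map (Int.castRingHom ℂ)).roots.finite_toSet.subset ?_) ?_
      · rintro z ⟨θ, hθ, rfl⟩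
        have h1 : ¬ (θ ∈ Set.Ioc 0 (2 * Real.pi) → aeval (circleMap 0 1 θ) B ≠ 0) := hθ
        push Not at h1
        have h2 := h1.2
        rw [jen_aeval] at h2
        exact (mem_roots hBm).mpr h2
      · apply (injOn_circleMap_of_abs_sub_le (c := 0) (R := 1) (a := 0) (b := 2 * Real.pi)
          one_ne_zero (by simp [abs_of_pos Real.pi_pos])).mono
        intro θ hθ
        have h1 : ¬ (θ ∈ Set.Ioc 0 (2 * Real.pi) → aeval (circleMap 0 1 θ) B ≠ 0) := hθ
        push Not at h1
        rw [Set.uIoc_of_le (by positivity)]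
        exact h1.1
    filter_upwards [hae] with θ hθ
    have hz : ‖circleMap 0 1 θ‖ = 1 := by simp
    have h1 := hpos _ hz
    have hn : 0 < ‖aeval (circleMap 0 1 θ) B‖ := norm_pos_iff.2 hθ
    have e1 : Real.log (‖aeval (circleMap 0 1 θ) A‖ ^ 2 + ‖aeval (circleMap 0 1 θ) C‖ ^ 2) +
        2 * Real.log ‖aeval (circleMap 0 1 θ) B‖ =
        Real.log (‖aeval (circleMap 0 1 θ) (A * B)‖ ^ 2 +
          ‖aeval (circleMap 0 1 θ) (C * B)‖ ^ 2) := by
      rw [map_mul, map_mul, norm_mul, norm_mul, mul_pow, mul_pow, ← add_mul,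
        Real.log_mul h1.ne' (by positivity), Real.log_pow]
      push_cast; ring
    have hx : 0 < ‖aeval (circleMap 0 1 θ) (A * B)‖ ^ 2 +
          ‖aeval (circleMap 0 1 θ) (C * B)‖ ^ 2 := by
      rw [map_mul, map_mul, norm_mul, norm_mul, mul_pow, mul_pow, ← add_mul]
      positivity
    show Real.log (‖aeval (circleMap 0 1 θ) A‖ ^ 2 + ‖aeval (circleMap 0 1 θ) C‖ ^ 2) +
        2 * Real.log ‖aeval (circleMap 0 1 θ) B‖ ≤
      (‖aeval (circleMap 0 1 θ) (A * B)‖ ^ 2 + ‖aeval (circleMap 0 1 θ) (C * B)‖ ^ 2) / c +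
        (Real.log c - 1)
    rw [e1]
    have h5 := Real.log_le_sub_one_of_pos (div_pos hx hcpos)
    rw [Real.log_div hx.ne' hcpos.ne'] at h5
    linarith
  -- evaluation
  have hR : Real.circleAverage (fun z => (‖aeval z (A * B)‖ ^ 2 + ‖aeval z (C * B)‖ ^ 2) / c +
        (Real.log c - 1)) 0 1 = Real.log c := by
    have i3 : CircleIntegrable (fun z => c⁻¹ • (‖aeval z (A * B)‖ ^ 2 +
        ‖aeval z (C * B)‖ ^ 2)) 0 1 := by
      apply ContinuousOn.circleIntegrable zero_le_one
      exact (((jen_cont (A * B)).add (jen_cont (C * B))).const_smul c⁻¹).continuousOn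
    have e : (fun z : ℂ => (‖aeval z (A * B)‖ ^ 2 + ‖aeval z (C * B)‖ ^ 2) / c +
        (Real.log c - 1)) = fun z => c⁻¹ • (‖aeval z (A * B)‖ ^ 2 + ‖aeval z (C * B)‖ ^ 2) +
        (Real.log c - 1) := by
      funext z; rw [smul_eq_mul, div_eq_inv_mul]
    rw [e, Real.circleAverage_fun_add i3 (circleIntegrable_const _ _ _),
      Real.circleAverage_fun_smul, hcAv, Real.circleAverage_const, smul_eq_mul,
      inv_mul_cancel₀ hcpos.ne']
    ring
  have hL : Real.circleAverage (fun z => Real.log (‖aeval z A‖ ^ 2 + ‖aeval z C‖ ^ 2) +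
      2 * Real.log ‖aeval z B‖) 0 1 =
      Real.circleAverage (fun z => Real.log (‖aeval z A‖ ^ 2 + ‖aeval z C‖ ^ 2)) 0 1 +
      2 * Real.circleAverage (fun z => Real.log ‖aeval z B‖) 0 1 := by
    rw [Real.circleAverage_fun_add hF hL2]
    congr 1
    have := Real.circleAverage_fun_smul (a := (2 : ℝ)) (f := fun z => Real.log ‖aeval z B‖)
      (c := 0) (R := 1)
    simpa [smul_eq_mul] using this
  have hM := jen_mahler B hB
  rw [hL, hR] at hmain
  linarith

end Pool.H1.ZU
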